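import Mathlib

/-! # Invariant path systems on Cayley graphs: combinatorial core (MP_8f0578_co) -/

set_option autoImplicit false

open Finset

namespace Pool.Agent.L0h82.PS

universe u

/-- The paths from `1` of an invariant consistent path system: `x g 0 = 1, …, x g (ℓ g) = g`. -/
structure Sys (G : Type u) [Group G] where
  len : G → ℕ
  x : G → ℕ → G
  x0 : ∀ g, x g 0 = 1
  xl : ∀ g, x g (len g) = g
  inj : ∀ g i j, i ≤ len g → j ≤ len g → x g i = x g j → i = j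
  por : ∀ g i j, i ≤ j → j ≤ len g → len ((x g i)⁻¹ * x g j) = j - i
  por' : ∀ g i j k, i ≤ j → j ≤ len g → k ≤ j - i →
    x ((x g i)⁻¹ * x g j) k = (x g i)⁻¹ * x g (i + k)
  inv : ∀ g, len g⁻¹ = len g
  inv' : ∀ g k, k ≤ len g → x g⁻¹ k = g⁻¹ * x g (len g - k)

namespace Sys

variable {G : Type u} [Group G] (s : Sys G)

/-- The type of a vertex: the two letters leaving it along the path. -/
def V (g : G) (i : ℕ) : Sym2 G :=
  s((s.x g i)⁻¹ * s.x g (i + 1), (s.x g i)⁻¹ * s.x g (i - 1))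

theorem V_por {g : G} {i j k : ℕ} (hij : i ≤ j) (hj : j ≤ s.len g) (hk : 1 ≤ k)
    (hk' : k < j - i) : s.V ((s.x g i)⁻¹ * s.x g j) k = s.V g (i + k) := by
  unfold V
  rw [s.por' g i j k hij hj hk'.le, s.por' g i j (k + 1) hij hj hk',
    s.por' g i j (k - 1) hij hj (by omega)]
  have e : i + k - 1 = i + (k - 1) := by omega
  rw [e, ← add_assoc]
  congr 1
  · group
  · group

theorem V_inv {g : G} {k : ℕ} (hk : 1 ≤ k) (hk' : k < s.len g) :
    s.V g⁻¹ k = s.V g (s.len g - k) := by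
  unfold V
  rw [s.inv' g k hk'.le, s.inv' g (k + 1) hk', s.inv' g (k - 1) (by omega)]
  have e1 : s.len g - (k + 1) = s.len g - k - 1 := by omega
  have e2 : s.len g - (k - 1) = s.len g - k + 1 := by omega
  rw [e1, e2, Sym2.eq_swap]
  congr 1
  · group
  · group

/-- Three coincidences of two paths: at the middle one the types agree. -/
theorem V_eq {g h c : G} {i₁ i₂ i₃ j₁ j₂ j₃ : ℕ} (h12 : i₁ < i₂) (h23 : i₂ < i₃)
    (hi : i₃ ≤ s.len g) (hj1 : j₁ ≤ s.len h) (hj2 : j₂ ≤ s.len h) (hj3 : j₃ ≤ s.len h)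
    (e1 : s.x g i₁ = c * s.x h j₁) (e2 : s.x g i₂ = c * s.x h j₂)
    (e3 : s.x g i₃ = c * s.x h j₃) : s.V g i₂ = s.V h j₂ := by
  have hne : j₁ ≠ j₃ := by
    intro e
    rw [e, ← e3] at e1
    have := s.inj g i₁ i₃ (by omega) hi e1
    omega
  have hk : (s.x g i₁)⁻¹ * s.x g i₃ = (s.x h j₁)⁻¹ * s.x h j₃ := by
    rw [e1, e3]
    group
  have hlen : s.len ((s.x g i₁)⁻¹ * s.x g i₃) = i₃ - i₁ := s.por g i₁ i₃ (by omega) hi
  have pg : ∀ k, k ≤ i₃ - i₁ → s.x ((s.x g i₁)⁻¹ * s.x g i₃) k =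
      (s.x g i₁)⁻¹ * s.x g (i₁ + k) := fun k hk' => s.por' g i₁ i₃ k (by omega) hi hk'
  rcases lt_or_gt_of_ne hne with hlt | hlt
  · have hlen2 : s.len ((s.x h j₁)⁻¹ * s.x h j₃) = j₃ - j₁ := s.por h j₁ j₃ hlt.le hj3
    have hd : i₃ - i₁ = j₃ - j₁ := by rw [← hlen, hk, hlen2]
    have key : ∀ k, k ≤ i₃ - i₁ → s.x g (i₁ + k) = c * s.x h (j₁ + k) := by
      intro k hk'
      have h1 := pg k hk'
      rw [hk, s.por' h j₁ j₃ k hlt.le hj3 (by omega), e1] at h1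
      have h2 : s.x g (i₁ + k) = c * s.x h j₁ * ((s.x h j₁)⁻¹ * s.x h (j₁ + k)) := by
        rw [h1]
        group
      rw [h2]
      group
    have k2 := key (i₂ - i₁) (by omega)
    rw [show i₁ + (i₂ - i₁) = i₂ by omega, e2] at k2
    have hj : j₂ = j₁ + (i₂ - i₁) := s.inj h _ _ hj2 (by omega) (mul_left_cancel k2)
    have k3 := key (i₂ - i₁ + 1) (by omega)
    have k4 := key (i₂ - i₁ - 1) (by omega)
    rw [show i₁ + (i₂ - i₁ + 1) = i₂ + 1 by omega,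
      show j₁ + (i₂ - i₁ + 1) = j₂ + 1 by omega] at k3
    rw [show i₁ + (i₂ - i₁ - 1) = i₂ - 1 by omega,
      show j₁ + (i₂ - i₁ - 1) = j₂ - 1 by omega] at k4
    unfold V
    rw [k3, k4, e2]
    congr 1
    · group
    · group
  · have hinv : (s.x h j₁)⁻¹ * s.x h j₃ = ((s.x h j₃)⁻¹ * s.x h j₁)⁻¹ := by group
    have hlen2 : s.len ((s.x h j₁)⁻¹ * s.x h j₃) = j₁ - j₃ := by
      rw [hinv, s.inv, s.por h j₃ j₁ hlt.le hj1]
    have hd : i₃ - i₁ = j₁ - j₃ := by rw [← hlen, hk, hlen2]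
    have key : ∀ k, k ≤ i₃ - i₁ → s.x g (i₁ + k) = c * s.x h (j₁ - k) := by
      intro k hk'
      have h1 := pg k hk'
      have hl : s.len ((s.x h j₃)⁻¹ * s.x h j₁) = j₁ - j₃ := s.por h j₃ j₁ hlt.le hj1
      rw [hk, hinv, s.inv' _ k (by omega), hl,
        s.por' h j₃ j₁ (j₁ - j₃ - k) hlt.le hj1 (by omega),
        show j₃ + (j₁ - j₃ - k) = j₁ - k by omega, e1] at h1
      have h2 : s.x g (i₁ + k) = c * s.x h j₁ * ((c * s.x h j₁)⁻¹ * s.x g (i₁ + k)) := by group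
      rw [h2, ← h1]
      group
    have k2 := key (i₂ - i₁) (by omega)
    rw [show i₁ + (i₂ - i₁) = i₂ by omega, e2] at k2
    have hj : j₂ = j₁ - (i₂ - i₁) := s.inj h _ _ hj2 (by omega) (mul_left_cancel k2)
    have k3 := key (i₂ - i₁ + 1) (by omega)
    have k4 := key (i₂ - i₁ - 1) (by omega)
    rw [show i₁ + (i₂ - i₁ + 1) = i₂ + 1 by omega,
      show j₁ - (i₂ - i₁ + 1) = j₂ - 1 by omega] at k3
    rw [show i₁ + (i₂ - i₁ - 1) = i₂ - 1 by omega,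
      show j₁ - (i₂ - i₁ - 1) = j₂ + 1 by omega] at k4
    unfold V
    rw [k3, k4, e2, Sym2.eq_swap]
    congr 1
    · group
    · group

/-- The interior positions. -/
def int (g : G) : Finset ℕ := Finset.Ioo 0 (s.len g)

open Classical in
/-- The basic count. -/
theorem count [Fintype G] (g h : G) :
    ((s.int g ×ˢ s.int h).filter (fun p => s.V g p.1 ≠ s.V h p.2)).card
      ≤ 2 * Fintype.card G := by
  set B := (s.int g ×ˢ s.int h).filter (fun p => s.V g p.1 ≠ s.V h p.2) with hB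
  have hmem : ∀ p ∈ B, (0 < p.1 ∧ p.1 < s.len g) ∧ (0 < p.2 ∧ p.2 < s.len h) ∧
      s.V g p.1 ≠ s.V h p.2 := by
    intro p hp
    rw [hB, mem_filter, mem_product, int, int, mem_Ioo, mem_Ioo] at hp
    exact ⟨hp.1.1, hp.1.2, hp.2⟩
  let f : ℕ × ℕ → G := fun p => s.x g p.1 * (s.x h p.2)⁻¹
  have hfib : ∀ a ∈ B.image f, (B.filter (fun p => f p = a)).card ≤ 2 := by
    intro a _
    by_contra hcon
    rw [not_le, Finset.two_lt_card] at hcon
    obtain ⟨p, hp, q, hq, r, hr, hpq, hpr, hqr⟩ := hcon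
    rw [mem_filter] at hp hq hr
    have hfx : ∀ t ∈ B, f t = a → s.x g t.1 = a * s.x h t.2 := by
      intro t _ ht
      rw [← ht]
      simp [f]
    have hinj : ∀ t ∈ B, ∀ t' ∈ B, f t = a → f t' = a → t ≠ t' → t.1 ≠ t'.1 := by
      intro t ht t' ht' e e' hne h1
      apply hne
      refine Prod.ext h1 ?_
      have h2 := hfx t ht e
      have h3 := hfx t' ht' e'
      rw [h1, h3] at h2
      exact (s.inj h _ _ (hmem t' ht').2.1.2.le (hmem t ht).2.1.2.le (mul_left_cancel h2)).symm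
    have main : ∀ t₁ ∈ B, ∀ t₂ ∈ B, ∀ t₃ ∈ B, f t₁ = a → f t₂ = a → f t₃ = a →
        t₁.1 < t₂.1 → t₂.1 < t₃.1 → False := by
      intro t₁ h1 t₂ h2 t₃ h3 e1 e2 e3 h12 h23
      exact (hmem t₂ h2).2.2 (s.V_eq h12 h23 (hmem t₃ h3).1.2.le (hmem t₁ h1).2.1.2.le
        (hmem t₂ h2).2.1.2.le (hmem t₃ h3).2.1.2.le (hfx t₁ h1 e1) (hfx t₂ h2 e2) (hfx t₃ h3 e3))
    have d1 := hinj p hp.1 q hq.1 hp.2 hq.2 hpq
    have d2 := hinj p hp.1 r hr.1 hp.2 hr.2 hpr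
    have d3 := hinj q hq.1 r hr.1 hq.2 hr.2 hqr
    rcases lt_or_gt_of_ne d1 with a1 | a1 <;> rcases lt_or_gt_of_ne d2 with a2 | a2 <;>
      rcases lt_or_gt_of_ne d3 with a3 | a3
    · exact main p hp.1 q hq.1 r hr.1 hp.2 hq.2 hr.2 a1 a3
    · exact main p hp.1 r hr.1 q hq.1 hp.2 hr.2 hq.2 a2 a3
    · omega
    · exact main r hr.1 p hp.1 q hq.1 hr.2 hp.2 hq.2 a2 a1
    · exact main q hq.1 p hp.1 r hr.1 hq.2 hp.2 hr.2 a1 a2
    · omega
    · exact main q hq.1 r hr.1 p hp.1 hq.2 hr.2 hp.2 a3 a2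
    · exact main r hr.1 q hq.1 p hp.1 hr.2 hq.2 hp.2 a3 a1
  calc B.card ≤ 2 * (B.image f).card := Finset.card_le_mul_card_image B 2 hfib
    _ ≤ 2 * Fintype.card G := by
        gcongr
        exact Finset.card_le_univ _

end Sys

end Pool.Agent.L0h82.PS
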