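import Pool.Agent.L0h82.PS.Core

/-! # Invariant path systems on Cayley graphs: the dominant vertex type -/

set_option autoImplicit false

open Finset

namespace Pool.Agent.L0h82.PS

universe u

namespace Sys

variable {G : Type u} [Group G] (s : Sys G)

open Classical in
/-- interior positions of type `W` -/
noncomputable def good (W : Sym2 G) (g : G) : Finset ℕ := (s.int g).filter (fun i => s.V g i = W)

open Classical in
/-- interior positions of another type -/
noncomputable def bad (W : Sym2 G) (g : G) : Finset ℕ := (s.int g).filter (fun i => s.V g i ≠ W)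

theorem good_add_bad (W : Sym2 G) (g : G) :
    (s.good W g).card + (s.bad W g).card = (s.int g).card := by
  classical
  unfold good bad
  exact Finset.card_filter_add_card_filter_not _

theorem card_int (g : G) : (s.int g).card = s.len g - 1 := by
  unfold int
  rw [Nat.card_Ioo]
  omega

theorem len_lt [Fintype G] (g : G) : s.len g < Fintype.card G := by
  classical
  have h : (range (s.len g + 1)).card ≤ (Finset.univ : Finset G).card := by
    refine Finset.card_le_card_of_injOn (s.x g) (fun _ _ => Finset.mem_coe.2 (Finset.mem_univ _)) ?_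
    intro i hi j hj e
    rw [Finset.mem_coe, Finset.mem_range] at hi hj
    exact s.inj g i j (by omega) (by omega) e
  rw [Finset.card_range, Finset.card_univ] at h
  omega

theorem dom [Fintype G] (g : G) (hg : (s.int g).Nonempty) :
    ∃ W : Sym2 G, (s.int g).card * (s.bad W g).card ≤ 2 * Fintype.card G := by
  classical
  obtain ⟨i₀, hi₀, hmax⟩ := Finset.exists_max_image (s.int g)
    (fun i => (s.good (s.V g i) g).card) hg
  refine ⟨s.V g i₀, ?_⟩
  refine le_trans ?_ (s.count g g)
  have h1 : ∀ i ∈ s.int g, (s.bad (s.V g i₀) g).card ≤ (s.bad (s.V g i) g).card := by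
    intro i hi
    have h2 := hmax i hi
    have h3 := s.good_add_bad (s.V g i₀) g
    have h4 := s.good_add_bad (s.V g i) g
    omega
  rw [Finset.card_filter, Finset.sum_product]
  calc (s.int g).card * (s.bad (s.V g i₀) g).card
      = ∑ i ∈ s.int g, (s.bad (s.V g i₀) g).card := by rw [Finset.sum_const, smul_eq_mul]
    _ ≤ ∑ i ∈ s.int g, (s.bad (s.V g i) g).card := Finset.sum_le_sum h1
    _ = _ := by
        refine Finset.sum_congr rfl fun i _ => ?_
        rw [bad, Finset.card_filter]
        refine Finset.sum_congr rfl fun j _ => ?_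
        simp only [ne_eq]
        by_cases h : s.V g i = s.V g j
        · rw [if_neg (not_not.2 h.symm), if_neg (not_not.2 h)]
        · rw [if_pos (Ne.symm h), if_pos h]

theorem uniq [Fintype G] (g h : G) {W W' : Sym2 G} (hW : W ≠ W') :
    (s.good W g).card * (s.good W' h).card ≤ 2 * Fintype.card G := by
  classical
  rw [← Finset.card_product]
  refine le_trans (Finset.card_le_card ?_) (s.count g h)
  intro p hp
  rw [mem_product, good, good, mem_filter, mem_filter] at hp
  rw [mem_filter, mem_product]
  refine ⟨⟨hp.1.1, hp.2.1⟩, ?_⟩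
  rw [hp.1.2, hp.2.2]
  exact hW

/-- One type dominates all long paths. -/
theorem dominant [Fintype G] {g₀ : G} (h₀ : 8 * Fintype.card G < (s.len g₀ - 1) ^ 2) :
    ∃ W : Sym2 G, ∀ g, 8 * Fintype.card G < (s.len g - 1) ^ 2 →
      (s.len g - 1) * (s.bad W g).card ≤ 2 * Fintype.card G := by
  have hN : 0 < Fintype.card G := Fintype.card_pos_iff.2 ⟨1⟩
  have hne : ∀ g, 8 * Fintype.card G < (s.len g - 1) ^ 2 → (s.int g).Nonempty := by
    intro g hg
    rw [← Finset.card_pos, card_int]
    by_contra hcon
    have : s.len g - 1 = 0 := by omega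
    rw [this] at hg
    simp at hg
  have hbig : ∀ g W, 8 * Fintype.card G < (s.len g - 1) ^ 2 →
      (s.int g).card * (s.bad W g).card ≤ 2 * Fintype.card G →
      3 * (s.len g - 1) ≤ 4 * (s.good W g).card := by
    intro g W hg hW
    have h1 := s.good_add_bad W g
    rw [card_int] at h1 hW
    have h2 : 4 * (s.bad W g).card ≤ s.len g - 1 := by
      by_contra hcon
      rw [not_le] at hcon
      nlinarith
    omega
  obtain ⟨W, hW⟩ := s.dom g₀ (hne g₀ h₀)
  refine ⟨W, fun g hg => ?_⟩
  obtain ⟨W', hW'⟩ := s.dom g (hne g hg)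
  by_cases e : W' = W
  · rw [← e, ← card_int]
    exact hW'
  · exfalso
    have h1 := s.uniq g g₀ e
    have h2 := hbig g W' hg hW'
    have h3 := hbig g₀ W h₀ hW
    set n := s.len g - 1
    set m := s.len g₀ - 1
    set a := (s.good W' g).card
    set b := (s.good W g₀).card
    set N := Fintype.card G
    have h4 : 9 * (n * m) ≤ 16 * (a * b) := by
      calc 9 * (n * m) = (3 * n) * (3 * m) := by ring
        _ ≤ (4 * a) * (4 * b) := Nat.mul_le_mul h2 h3
        _ = 16 * (a * b) := by ring
    have h5 : 8 * N < n * m := by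
      by_contra hcon
      rw [not_lt] at hcon
      have h6 : (n * m) ^ 2 ≤ (8 * N) ^ 2 := Nat.pow_le_pow_left hcon 2
      have h7 : (8 * N) ^ 2 < n ^ 2 * m ^ 2 := by
        calc (8 * N) ^ 2 = (8 * N) * (8 * N) := by ring
          _ < n ^ 2 * m ^ 2 := Nat.mul_lt_mul_of_lt_of_le hg h₀.le (by omega)
      rw [mul_pow] at h6
      omega
    omega

/-- All interior vertices have type `W`. -/
def Pure (W : Sym2 G) (g : G) : Prop := ∀ i, 0 < i → i < s.len g → s.V g i = W

theorem len_one : s.len 1 = 0 := by
  have h := s.inj 1 0 (s.len 1) (Nat.zero_le _) le_rfl (by rw [s.x0, s.xl])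
  exact h.symm

theorem exists_pure [Fintype G] (W : Sym2 G) :
    ∃ g₁, s.Pure W g₁ ∧ ∀ g, s.Pure W g → s.len g ≤ s.len g₁ := by
  classical
  have hne : (Finset.univ.filter (fun g : G => s.Pure W g)).Nonempty := by
    refine ⟨1, ?_⟩
    rw [mem_filter]
    refine ⟨mem_univ _, fun i h1 h2 => ?_⟩
    rw [s.len_one] at h2
    omega
  obtain ⟨g₁, h1, h2⟩ := Finset.exists_max_image _ s.len hne
  rw [mem_filter] at h1
  exact ⟨g₁, h1.2, fun g hg => h2 g (by rw [mem_filter]; exact ⟨mem_univ _, hg⟩)⟩

theorem pure_por {W : Sym2 G} {g : G} {i j : ℕ} (hij : i ≤ j) (hj : j ≤ s.len g)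
    (h : ∀ k, i < k → k < j → s.V g k = W) : s.Pure W ((s.x g i)⁻¹ * s.x g j) := by
  intro k h1 h2
  rw [s.por g i j hij hj] at h2
  rw [s.V_por hij hj h1 h2]
  exact h _ (by omega) (by omega)

theorem pure_inv {W : Sym2 G} {g : G} (h : s.Pure W g) : s.Pure W g⁻¹ := by
  intro k h1 h2
  rw [s.inv] at h2
  rw [s.V_inv h1 h2]
  exact h _ (by omega) (by omega)

/-- A path is cut by its bad vertices into pure paths. -/
theorem blocks {W : Sym2 G} {K : ℕ} (hK : ∀ g, s.Pure W g → s.len g ≤ K) (g : G) :
    s.len g ≤ K * ((s.bad W g).card + 1) := by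
  classical
  by_contra hcon
  rw [not_le] at hcon
  set o := (s.bad W g).card with ho
  have h1 : ∀ b, b < o + 1 → ∃ c, b * K < c ∧ c < (b + 1) * K + 1 ∧ c ∈ s.bad W g := by
    intro b hb
    have hb' : (b + 1) * K + 1 ≤ s.len g := by
      have : (b + 1) * K ≤ K * (o + 1) := by
        rw [mul_comm]
        exact Nat.mul_le_mul_left K (by omega)
      omega
    by_contra hno
    push Not at hno
    have h2 : s.Pure W ((s.x g (b * K))⁻¹ * s.x g ((b + 1) * K + 1)) := by
      apply s.pure_por (by nlinarith) hb'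
      intro k h3 h4
      by_contra h5
      apply hno k h3 h4
      rw [bad, mem_filter, int, mem_Ioo]
      exact ⟨⟨by omega, by omega⟩, h5⟩
    have h3 := hK _ h2
    rw [s.por g _ _ (by nlinarith) hb'] at h3
    have h4 : (b + 1) * K + 1 - b * K = K + 1 := by
      rw [add_mul, one_mul]
      omega
    omega
  choose! c hc using h1
  have h2 : (range (o + 1)).card ≤ (s.bad W g).card := by
    refine Finset.card_le_card_of_injOn c ?_ ?_
    · intro b hb
      rw [Finset.mem_coe, mem_range] at hb
      exact Finset.mem_coe.2 (hc b hb).2.2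
    · intro b hb b' hb' e
      rw [Finset.mem_coe, mem_range] at hb hb'
      have h3 := hc b hb
      have h4 := hc b' hb'
      rw [e] at h3
      have h5 : b * K < (b' + 1) * K := by omega
      have h6 : b' * K < (b + 1) * K := by omega
      have h7 := Nat.lt_of_mul_lt_mul_right h5
      have h8 := Nat.lt_of_mul_lt_mul_right h6
      omega
  rw [card_range] at h2
  omega

theorem four_le [Fintype G] {W : Sym2 G} {K : ℕ} (hK : ∀ g, s.Pure W g → s.len g ≤ K) {g : G}
    (hg : 8 * Fintype.card G < (s.len g - 1) ^ 2)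
    (hW : (s.len g - 1) * (s.bad W g).card ≤ 2 * Fintype.card G) : 4 ≤ K := by
  by_contra hcon
  have h1 := s.blocks hK g
  have h2 := s.len_lt g
  have h3 : s.len g ≤ 3 * ((s.bad W g).card + 1) :=
    h1.trans (Nat.mul_le_mul_right _ (by omega))
  set o := (s.bad W g).card
  set N := Fintype.card G
  obtain ⟨n, hn⟩ : ∃ n, s.len g = n + 1 := by
    cases h : s.len g with
    | zero => rw [h] at hg; simp at hg
    | succ n => exact ⟨n, rfl⟩
  rw [hn] at h3 h2 hg hW
  rw [Nat.add_sub_cancel] at hg hW
  nlinarith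

end Sys

end Pool.Agent.L0h82.PS
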