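import Pool.Agent.L0h82.PS.Dom

/-! # Invariant path systems on Cayley graphs: the length function -/

set_option autoImplicit false

open Finset
open scoped Pointwise

namespace Pool.Agent.L0h82.PS

universe u

namespace Sys

variable {G : Type u} [Group G] (s : Sys G)

/-- The letter between the positions `i` and `i + 1`. -/
def a (g : G) (i : ℕ) : G := (s.x g i)⁻¹ * s.x g (i + 1)

theorem V_eq_a {g : G} {i : ℕ} (hi : 0 < i) : s.V g i = s(s.a g i, (s.a g (i - 1))⁻¹) := by
  unfold V a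
  congr 1
  rw [Nat.sub_add_cancel hi]
  group

theorem a_ne {g : G} {i : ℕ} (hi : 0 < i) (hi' : i < s.len g) :
    s.a g i ≠ (s.a g (i - 1))⁻¹ := by
  intro h
  unfold a at h
  rw [Nat.sub_add_cancel hi, mul_inv_rev, inv_inv] at h
  have h2 := mul_left_cancel h
  have := s.inj g _ _ (by omega) (by omega) h2
  omega

/-- the set of letters in the dominating type -/
def T (W : Sym2 G) : Set G := {z | z ∈ W}

theorem a_mem {W : Sym2 G} {g : G} (hg : s.Pure W g) {i : ℕ} (hi : 0 < i) (hi' : i < s.len g) :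
    s.a g i ∈ T W := by
  change s.a g i ∈ W
  rw [← hg i hi hi', s.V_eq_a hi]
  exact Sym2.mem_mk_left _ _

theorem a_mem' {W : Sym2 G} {g : G} (hg : s.Pure W g) {i : ℕ} (hi : 0 < i) (hi' : i < s.len g) :
    (s.a g (i - 1))⁻¹ ∈ T W := by
  change (s.a g (i - 1))⁻¹ ∈ W
  rw [← hg i hi hi', s.V_eq_a hi]
  exact Sym2.mem_mk_right _ _

theorem a_zero (g : G) : s.a g 0 = s.x g 1 := by
  unfold a
  rw [s.x0]
  group

/-- the structure of `T` and of the long pure paths -/
theorem letters {W : Sym2 G} {g₁ : G} (h₁ : s.Pure W g₁) (h4 : 4 ≤ s.len g₁) :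
    (∀ z ∈ T W, z⁻¹ ∈ T W) ∧
    ∀ z ∈ T W, ∃ g, s.Pure W g ∧ s.len g₁ - 1 ≤ s.len g ∧ s.x g 1 = z := by
  have hW1 : W = s(s.a g₁ 1, (s.a g₁ 0)⁻¹) := by
    rw [← h₁ 1 (by omega) (by omega), s.V_eq_a (by omega)]
  have hW2 : W = s(s.a g₁ 2, (s.a g₁ 1)⁻¹) := by
    rw [← h₁ 2 (by omega) (by omega), s.V_eq_a (by omega)]
  have hW3 : W = s(s.a g₁ 3, (s.a g₁ 2)⁻¹) := by
    rw [← h₁ 3 (by omega) (by omega), s.V_eq_a (by omega)]
  have hT : ∀ z, z ∈ T W ↔ z = s.a g₁ 1 ∨ z = (s.a g₁ 0)⁻¹ := by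
    intro z
    change z ∈ W ↔ _
    rw [hW1]
    exact Sym2.mem_iff
  have hne1 : s.a g₁ 1 ≠ (s.a g₁ 0)⁻¹ := s.a_ne (i := 1) (by omega) (by omega)
  have hne2 : s.a g₁ 2 ≠ (s.a g₁ 1)⁻¹ := s.a_ne (i := 2) (by omega) (by omega)
  by_cases e : s.a g₁ 1 = s.a g₁ 0
  · -- constant letter
    have hT' : ∀ z, z ∈ T W ↔ z = s.a g₁ 0 ∨ z = (s.a g₁ 0)⁻¹ := by
      intro z
      rw [hT, e]
    have hconst : ∀ i, i < s.len g₁ → s.a g₁ i = s.a g₁ 0 := by
      intro i
      induction i with
      | zero => exact fun _ => rfl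
      | succ i ih =>
        intro hi
        have h2 := s.a_mem h₁ (i := i + 1) (by omega) hi
        rw [hT'] at h2
        rcases h2 with h2 | h2
        · exact h2
        · exfalso
          have h3 := s.a_ne (g := g₁) (i := i + 1) (by omega) hi
          rw [Nat.add_sub_cancel, ih (by omega)] at h3
          exact h3 h2
    refine ⟨?_, ?_⟩
    · intro z hz
      rw [hT'] at hz ⊢
      rcases hz with rfl | rfl
      · exact Or.inr rfl
      · left
        rw [inv_inv]
    · intro z hz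
      rw [hT'] at hz
      rcases hz with rfl | rfl
      · exact ⟨g₁, h₁, by omega, (s.a_zero g₁).symm⟩
      · refine ⟨g₁⁻¹, s.pure_inv h₁, by rw [s.inv]; omega, ?_⟩
        rw [s.inv' g₁ 1 (by omega)]
        have h2 := hconst (s.len g₁ - 1) (by omega)
        rw [← h2]
        unfold a
        rw [Nat.sub_add_cancel (by omega), s.xl]
        group
  · -- two involutions
    have h12 := hW1.symm.trans hW2
    have h23 := hW2.symm.trans hW3
    rw [Sym2.eq_iff] at h12 h23
    rcases h12 with ⟨p1, p2⟩ | ⟨p1, p2⟩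
    · exact absurd (inv_injective p2).symm e
    · rcases h23 with ⟨q1, q2⟩ | ⟨q1, q2⟩
      · exact absurd ((inv_injective q2).trans p2.symm) hne1
      · -- a₁⁻¹ = a₁, a₂ = a₀⁻¹, a₂ = a₂⁻¹
        have ha0 : (s.a g₁ 0)⁻¹ = s.a g₁ 0 := by
          have h3 : (s.a g₁ 2)⁻¹ = s.a g₁ 2 := q1.symm
          rw [← p2, inv_inv] at h3
          exact h3.symm
        have hT' : ∀ z, z ∈ T W ↔ z = s.a g₁ 1 ∨ z = s.a g₁ 0 := by
          intro z
          rw [hT, ha0]
        refine ⟨?_, ?_⟩
        · intro z hz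
          rw [hT'] at hz ⊢
          rcases hz with rfl | rfl
          · exact Or.inl p1.symm
          · exact Or.inr ha0
        · intro z hz
          rw [hT'] at hz
          rcases hz with rfl | rfl
          · refine ⟨(s.x g₁ 1)⁻¹ * s.x g₁ (s.len g₁), ?_, ?_, ?_⟩
            · exact s.pure_por (by omega) le_rfl fun k h5 h6 => h₁ k (by omega) h6
            · rw [s.por g₁ 1 _ (by omega) le_rfl]
            · rw [s.por' g₁ 1 _ 1 (by omega) le_rfl (by omega)]
              rfl
          · exact ⟨g₁, h₁, by omega, (s.a_zero g₁).symm⟩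

/-- products of few letters of `T` are the ends of pure paths -/
theorem reach {W : Sym2 G} {K : ℕ}
    (hP : ∀ z ∈ T W, ∃ g, s.Pure W g ∧ K - 1 ≤ s.len g ∧ s.x g 1 = z) (hT : (T W).Nonempty) :
    ∀ m, m < K → ∀ h : G, h ∈ (T W) ^ m → ∃ k ≤ m, ∃ g, s.Pure W g ∧ K - 1 ≤ s.len g ∧
      s.x g 1 ∈ T W ∧ h = s.x g k := by
  intro m
  induction m with
  | zero =>
    intro _ h hh
    rw [pow_zero, Set.mem_one] at hh
    obtain ⟨z, hz⟩ := hT
    obtain ⟨g, h1, h2, h3⟩ := hP z hz
    exact ⟨0, le_rfl, g, h1, h2, by rw [h3]; exact hz, by rw [hh, s.x0]⟩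
  | succ m ih =>
    intro hm h hh
    rw [pow_succ, Set.mem_mul] at hh
    obtain ⟨h', hh', z, hz, rfl⟩ := hh
    obtain ⟨k, hk, g, h1, h2, h3, rfl⟩ := ih (by omega) h' hh'
    rcases Nat.eq_zero_or_pos k with rfl | hk0
    · obtain ⟨g', h4, h5, h6⟩ := hP z hz
      exact ⟨1, by omega, g', h4, h5, by rw [h6]; exact hz, by rw [s.x0, one_mul, h6]⟩
    · have h7 : s.V g k = W := h1 k hk0 (by omega)
      have h8 : z ∈ s.V g k := by
        rw [h7]
        exact hz
      unfold V at h8
      rw [Sym2.mem_iff] at h8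
      rcases h8 with rfl | rfl
      · exact ⟨k + 1, by omega, g, h1, h2, h3, by group⟩
      · exact ⟨k - 1, by omega, g, h1, h2, h3, by group⟩

open Classical in
/-- the length function -/
noncomputable def lam (S : Set G) (K : ℕ) (g : G) : ℝ :=
  if h : ∃ m, m < K ∧ g ∈ S ^ m then (Nat.find h : ℝ) / K else 1

section
variable (S : Set G) (K : ℕ)

theorem lam_nonneg (g : G) : 0 ≤ lam S K g := by
  unfold lam
  split_ifs
  · positivity
  · exact zero_le_one

theorem lam_eq {g : G} (h : ∃ m, m < K ∧ g ∈ S ^ m) :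
    ∃ m, m < K ∧ g ∈ S ^ m ∧ lam S K g = (m : ℝ) / K := by
  classical
  refine ⟨Nat.find h, (Nat.find_spec h).1, (Nat.find_spec h).2, ?_⟩
  unfold lam
  rw [dif_pos h]

theorem lam_eq_one {g : G} (h : ¬ ∃ m, m < K ∧ g ∈ S ^ m) : lam S K g = 1 := by
  unfold lam
  rw [dif_neg h]

theorem lam_le {g : G} {m : ℕ} (hm : g ∈ S ^ m) : lam S K g ≤ (m : ℝ) / K ∨ K ≤ m := by
  classical
  by_cases h : m < K
  · left
    unfold lam
    have hex : ∃ m, m < K ∧ g ∈ S ^ m := ⟨m, h, hm⟩
    rw [dif_pos hex]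
    have h2 : Nat.find hex ≤ m := Nat.find_min' hex ⟨h, hm⟩
    gcongr
  · exact Or.inr (not_lt.1 h)

theorem lam_le_one (hK : 0 < K) (g : G) : lam S K g ≤ 1 := by
  classical
  unfold lam
  split_ifs with h
  · have h2 := (Nat.find_spec h).1
    rw [div_le_one (by exact_mod_cast hK)]
    exact_mod_cast h2.le
  · exact le_rfl

theorem lam_eq_zero (hK : 0 < K) (g : G) : lam S K g = 0 ↔ g = 1 := by
  classical
  constructor
  · intro h
    unfold lam at h
    split_ifs at h with h1
    · have hK' : (K : ℝ) ≠ 0 := by exact_mod_cast hK.ne'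
      rw [div_eq_zero_iff] at h
      rcases h with h | h
      · have h2 : Nat.find h1 = 0 := by exact_mod_cast h
        have h3 := (Nat.find_spec h1).2
        rw [h2, pow_zero, Set.mem_one] at h3
        exact h3
      · exact absurd h hK'
    · exact absurd h one_ne_zero
  · rintro rfl
    have h1 : (1 : G) ∈ S ^ 0 := by rw [pow_zero]; exact Set.mem_one.2 rfl
    rcases lam_le S K h1 with h | h
    · have := lam_nonneg S K (1 : G)
      rw [Nat.cast_zero, zero_div] at h
      exact le_antisymm h this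
    · omega

theorem lam_inv (hS : ∀ z ∈ S, z⁻¹ ∈ S) (g : G) : lam S K g⁻¹ = lam S K g := by
  classical
  have hS' : S⁻¹ = S := by
    ext z
    rw [Set.mem_inv]
    exact ⟨fun h => by simpa using hS _ h, fun h => hS _ h⟩
  have key : ∀ m, g⁻¹ ∈ S ^ m ↔ g ∈ S ^ m := by
    intro m
    rw [← Set.mem_inv, ← inv_pow, hS']
  unfold lam
  simp only [key]

theorem lam_mul (hK : 0 < K) (g h : G) : lam S K (g * h) ≤ lam S K g + lam S K h := by
  classical
  have h1 := lam_le_one S K hK (g * h)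
  have hg := lam_nonneg S K g
  have hh := lam_nonneg S K h
  by_cases eg : ∃ m, m < K ∧ g ∈ S ^ m
  · by_cases eh : ∃ m, m < K ∧ h ∈ S ^ m
    · have e1 : lam S K g = (Nat.find eg : ℝ) / K := by
        unfold lam
        rw [dif_pos eg]
      have e2 : lam S K h = (Nat.find eh : ℝ) / K := by
        unfold lam
        rw [dif_pos eh]
      have hm : g * h ∈ S ^ (Nat.find eg + Nat.find eh) := by
        rw [pow_add]
        exact Set.mul_mem_mul (Nat.find_spec eg).2 (Nat.find_spec eh).2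
      rw [e1, e2, ← add_div]
      rcases lam_le S K hm with h2 | h2
      · refine h2.trans (le_of_eq ?_)
        push_cast
        ring
      · refine h1.trans ?_
        rw [one_le_div (by exact_mod_cast hK)]
        exact_mod_cast h2
    · have e2 : lam S K h = 1 := by
        unfold lam
        rw [dif_neg eh]
      linarith
  · have e1 : lam S K g = 1 := by
      unfold lam
      rw [dif_neg eg]
    linarith

end

end Sys

end Pool.Agent.L0h82.PS
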