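import Pool.Agent.L0h82.PS.Lam

/-! # Invariant path systems on Cayley graphs: the bound -/

set_option autoImplicit false

open Finset
open scoped Pointwise

namespace Pool.Agent.L0h82.PS

universe u

namespace Sys

variable {G : Type u} [Group G] (s : Sys G)

theorem one_le_sqrt_card [Fintype G] : (1 : ℝ) ≤ √(Fintype.card G : ℝ) := by
  rw [Real.one_le_sqrt]
  have hN : 0 < Fintype.card G := Fintype.card_pos_iff.2 ⟨1⟩
  exact_mod_cast hN

theorem short [Fintype G] {g : G} (h : (s.len g - 1) ^ 2 ≤ 8 * Fintype.card G) :
    (s.len g : ℝ) ≤ 4 * √(Fintype.card G : ℝ) := by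
  have h1 := one_le_sqrt_card (G := G)
  have h2 : ((s.len g - 1 : ℕ) : ℝ) ≤ 3 * √(Fintype.card G : ℝ) := by
    have h3 : ((s.len g - 1 : ℕ) : ℝ) ^ 2 ≤ 8 * (Fintype.card G : ℝ) := by exact_mod_cast h
    refine abs_le_of_sq_le_sq' ?_ (by positivity) |>.2
    rw [mul_pow, Real.sq_sqrt (by positivity)]
    have : (0 : ℝ) ≤ (Fintype.card G : ℝ) := by positivity
    linarith
  have h3 : (s.len g : ℝ) ≤ ((s.len g - 1 : ℕ) : ℝ) + 1 := by
    have : s.len g ≤ (s.len g - 1) + 1 := by omega
    exact_mod_cast this
  linarith

theorem bad_le [Fintype G] {g : G} {o : ℕ} (h : 8 * Fintype.card G < (s.len g - 1) ^ 2)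
    (ho : (s.len g - 1) * o ≤ 2 * Fintype.card G) : (o : ℝ) ≤ √(Fintype.card G : ℝ) := by
  apply Real.le_sqrt_of_sq_le
  have hN : 0 < Fintype.card G := Fintype.card_pos_iff.2 ⟨1⟩
  have key : o ^ 2 ≤ Fintype.card G := by
    by_contra hcon
    rw [not_le] at hcon
    have h1 := Nat.pow_le_pow_left ho 2
    rw [mul_pow] at h1
    have h2 : (8 * Fintype.card G) * Fintype.card G < (s.len g - 1) ^ 2 * o ^ 2 :=
      Nat.mul_lt_mul_of_lt_of_le h hcon.le (by omega)
    nlinarith
  exact_mod_cast key

theorem core [Fintype G] : ∃ lam : G → ℝ, (∀ g, lam g = 0 ↔ g = 1) ∧ (∀ g, lam g⁻¹ = lam g) ∧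
    (∀ g h, lam (g * h) ≤ lam g + lam h) ∧
    ∀ g, ∑ i ∈ range (s.len g), lam (s.a g i) ≤ 4 * √(Fintype.card G : ℝ) * lam g := by
  classical
  have hsq := one_le_sqrt_card (G := G)
  by_cases hlong : ∃ g₀, 8 * Fintype.card G < (s.len g₀ - 1) ^ 2
  · obtain ⟨g₀, h₀⟩ := hlong
    obtain ⟨W, hW⟩ := s.dominant h₀
    obtain ⟨g₁, h₁, hmax⟩ := s.exists_pure W
    have h4 : 4 ≤ s.len g₁ := s.four_le hmax h₀ (hW g₀ h₀)
    set K := s.len g₁ with hK
    have hK0 : 0 < K := by omega
    have hKR : (0 : ℝ) < K := by exact_mod_cast hK0
    obtain ⟨hinv, hP⟩ := s.letters h₁ h4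
    have hTne : (T W).Nonempty := ⟨_, s.a_mem h₁ (i := 1) (by omega) (by omega)⟩
    have hT1 : ∀ z ∈ T W, lam (T W) K z ≤ 1 / K := by
      intro z hz
      have hz1 : z ∈ (T W) ^ 1 := by rwa [pow_one]
      rcases lam_le (T W) K hz1 with h | h
      · simpa using h
      · omega
    refine ⟨lam (T W) K, lam_eq_zero _ _ hK0, lam_inv _ _ hinv, lam_mul _ _ hK0, fun g => ?_⟩
    have hnn := lam_nonneg (T W) K g
    by_cases eg : ∃ m, m < K ∧ g ∈ (T W) ^ m
    · obtain ⟨m, hm1, hm2, e1⟩ := lam_eq (T W) K eg
      obtain ⟨k, hk, g', p1, p2, p3, p4⟩ := s.reach hP hTne m hm1 g hm2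
      have hkl : k ≤ s.len g' := by omega
      have e2 : (s.x g' 0)⁻¹ * s.x g' k = g := by rw [s.x0, p4]; group
      have hlen : s.len g = k := by
        have := s.por g' 0 k (Nat.zero_le _) hkl
        rw [e2] at this
        omega
      have hx : ∀ j ≤ k, s.x g j = s.x g' j := by
        intro j hj
        have := s.por' g' 0 k j (Nat.zero_le _) hkl (by omega)
        rw [e2, s.x0, zero_add] at this
        rw [this]
        group
      have hmem : ∀ i ∈ range (s.len g), lam (T W) K (s.a g i) ≤ 1 / K := by
        intro i hi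
        rw [mem_range, hlen] at hi
        apply hT1
        have e3 : s.a g i = s.a g' i := by
          unfold a
          rw [hx i (by omega), hx (i + 1) (by omega)]
        rw [e3]
        rcases Nat.eq_zero_or_pos i with rfl | hi0
        · rw [s.a_zero]
          exact p3
        · exact s.a_mem p1 hi0 (by omega)
      calc ∑ i ∈ range (s.len g), lam (T W) K (s.a g i)
          ≤ ∑ _i ∈ range (s.len g), (1 : ℝ) / K := Finset.sum_le_sum hmem
        _ = (k : ℝ) / K := by
            rw [Finset.sum_const, card_range, hlen, nsmul_eq_mul]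
            ring
        _ ≤ (m : ℝ) / K := by gcongr
        _ = 1 * lam (T W) K g := by rw [e1, one_mul]
        _ ≤ 4 * √(Fintype.card G : ℝ) * lam (T W) K g := by
            gcongr
            linarith
    · have e1 : lam (T W) K g = 1 := lam_eq_one _ _ eg
      rw [e1, mul_one]
      by_cases hg : 8 * Fintype.card G < (s.len g - 1) ^ 2
      · have hb := s.bad_le hg (hW g hg)
        have hbl := s.blocks hmax g
        set o := (s.bad W g).card with ho
        have hterm : ∀ i ∈ range (s.len g), lam (T W) K (s.a g i) ≤
            1 / K + if i ∈ insert 0 (s.bad W g) then (1 : ℝ) else 0 := by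
          intro i hi
          rw [mem_range] at hi
          by_cases hz : s.a g i ∈ T W
          · have := hT1 _ hz
            split_ifs <;> linarith
          · have hi' : i ∈ insert 0 (s.bad W g) := by
              rw [mem_insert]
              rcases Nat.eq_zero_or_pos i with h | h
              · exact Or.inl h
              · right
                rw [bad, mem_filter, int, mem_Ioo]
                refine ⟨⟨h, hi⟩, fun hV => hz ?_⟩
                change s.a g i ∈ W
                rw [← hV, s.V_eq_a h]
                exact Sym2.mem_mk_left _ _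
            rw [if_pos hi']
            have h5 := lam_le_one (T W) K hK0 (s.a g i)
            have h6 : (0 : ℝ) ≤ 1 / K := by positivity
            linarith
        have hcard : (((range (s.len g)).filter (fun i => i ∈ insert 0 (s.bad W g))).card : ℝ)
            ≤ o + 1 := by
          have h5 : ((range (s.len g)).filter (fun i => i ∈ insert 0 (s.bad W g))).card ≤
              (insert 0 (s.bad W g)).card := by
            apply Finset.card_le_card
            intro i hi
            exact (mem_filter.1 hi).2
          have h6 := Finset.card_insert_le 0 (s.bad W g)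
          exact_mod_cast h5.trans h6
        have hLK : (s.len g : ℝ) / K ≤ o + 1 := by
          rw [div_le_iff₀ hKR]
          have : s.len g ≤ (o + 1) * K := by rw [mul_comm]; exact hbl
          exact_mod_cast this
        calc ∑ i ∈ range (s.len g), lam (T W) K (s.a g i)
            ≤ ∑ i ∈ range (s.len g), (1 / K + if i ∈ insert 0 (s.bad W g) then (1 : ℝ) else 0) :=
              Finset.sum_le_sum hterm
          _ = (s.len g : ℝ) / K +
              ((range (s.len g)).filter (fun i => i ∈ insert 0 (s.bad W g))).card := by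
              rw [Finset.sum_add_distrib, Finset.sum_const, card_range, nsmul_eq_mul,
                Finset.sum_boole]
              ring
          _ ≤ (o + 1) + (o + 1) := add_le_add hLK hcard
          _ ≤ 4 * √(Fintype.card G : ℝ) := by linarith
      · have hs := s.short (not_lt.1 hg)
        refine le_trans ?_ hs
        calc ∑ i ∈ range (s.len g), lam (T W) K (s.a g i)
            ≤ ∑ _i ∈ range (s.len g), (1 : ℝ) :=
              Finset.sum_le_sum fun i _ => lam_le_one _ _ hK0 _
          _ = s.len g := by simp
  · push Not at hlong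
    refine ⟨fun g => if g = 1 then 0 else 1, ?_, ?_, ?_, ?_⟩
    · intro g
      by_cases h : g = 1 <;> simp [h]
    · intro g
      by_cases h : g = 1 <;> simp [h]
    · intro g h
      by_cases h1 : g = 1
      · simp [h1]
      · by_cases h2 : h = 1
        · simp [h2]
        · simp only [h1, h2, if_false]
          split_ifs <;> norm_num
    · intro g
      by_cases h : g = 1
      · rw [h, s.len_one]
        simp
      · simp only [h, if_false, mul_one]
        refine le_trans ?_ (s.short (hlong g))
        calc ∑ i ∈ range (s.len g), (if s.a g i = 1 then (0 : ℝ) else 1)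
            ≤ ∑ _i ∈ range (s.len g), (1 : ℝ) :=
              Finset.sum_le_sum fun i _ => by split_ifs <;> norm_num
          _ = s.len g := by simp

end Sys

end Pool.Agent.L0h82.PS
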